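import Pool.Agent.H95.Ramsey.Rows

/-!
Biased pairs (MP_28724c_co): if the density between two large vertex sets is at least `q > 1/2`
then there is a homogeneous set; better bases than in the general case.
-/

open Finset Pool.Agent.H92 Pool.Agent.H92.D Pool.Agent.H56.Ramsey

namespace Pool.Agent.H95.Ramsey

/-- The main theorem on biased pairs, for an arbitrary certificate predicate. -/
theorem biased_of_T1P {P : ℝ → ℝ → ℝ → ℝ → Prop} (hT : T1P P) {a q' q L M v c : ℝ}
    (ha : 0 < a) (ha1 : a ≤ 1) (hq : 0 < q') (hq1 : q' < 1) (hqq : q' < q) (hL : 0 ≤ L)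
    (hM : 0 ≤ M) (hcert : P a q' L M) (hgood : Good L v)
    (hkey : L + M + v < (1 + a) * c) :
    ∃ k0 : ℕ, ∀ k : ℕ, k0 ≤ k →
      ∀ (V : Type) [DecidableEq V] (G : SimpleGraph V) [DecidableRel G.Adj] (X Z : Finset V),
        Real.exp (c * k) ≤ X.card → Real.exp (c * k) ≤ Z.card →
        q * X.card * Z.card ≤ ∑ x ∈ X, ∑ y ∈ Z, ind G x y →
        (∃ S ⊆ X ∪ Z, G.IsNClique k S) ∨ (∃ S ⊆ X ∪ Z, Gᶜ.IsNClique k S) := by
  have hlog2 : 0 < Real.log 2 := Real.log_pos (by norm_num)
  set ρ : ℝ := ((1 + a) * c - (L + M + v)) / 4 with hρ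
  have hρ0 : 0 < ρ := by rw [hρ]; linarith
  obtain ⟨C1, hC1, hT1⟩ := hT a q' L M (q - q') ha ha1 hq hq1 hL hM (by linarith) hcert
  obtain ⟨C', hC', hG⟩ := hgood (ρ / 2) (by positivity)
  obtain ⟨k0, hk0⟩ := exists_large (C1 := C1) (K := Real.log C') (ρ := ρ) hρ0 hC1
  refine ⟨k0 + 1, ?_⟩
  intro k hk V _ G _ X Z hX hZ hd
  by_contra hcon
  push Not at hcon
  obtain ⟨hc1, hc2⟩ := hcon
  have hR : NoR G k (X ∪ Z) := fun S hS => hc1 S hS
  have hBl : NoB G k (X ∪ Z) := fun S hS => hc2 S hS
  have hkpos : 0 < k := by omega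
  have hk' : (0 : ℝ) < k := by exact_mod_cast hkpos
  have hXpos : (0 : ℝ) < X.card := lt_of_lt_of_le (Real.exp_pos _) hX
  have hZpos : (0 : ℝ) < Z.card := lt_of_lt_of_le (Real.exp_pos _) hZ
  have hXne : X.Nonempty := by
    rw [← Finset.card_pos]; exact_mod_cast hXpos
  have hZne : Z.Nonempty := by
    rw [← Finset.card_pos]; exact_mod_cast hZpos
  have hesb : ((X ∪ Z).card : ℝ) + 1 ≤ Real.exp (k * Real.log 2 + k * Real.log 2) := by
    refine es_bound hlog2.le hlog2.le ?_ G (k + k) k k (X ∪ Z) rfl hR hBl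
    rw [Real.exp_neg, Real.exp_log (by norm_num)]; norm_num
  have hUpos : (0 : ℝ) < (X ∪ Z).card := by
    have h1 : X.card ≤ (X ∪ Z).card := Finset.card_le_card subset_union_left
    have h2 : (X.card : ℝ) ≤ (X ∪ Z).card := by exact_mod_cast h1
    linarith
  have hn2 : Real.log (X ∪ Z).card ≤ 2 * k * Real.log 2 := by
    have h1 := Real.log_le_log hUpos (by linarith : ((X ∪ Z).card : ℝ)
      ≤ Real.exp (k * Real.log 2 + k * Real.log 2))
    rw [Real.log_exp] at h1
    linarith
  have hlX : c * k ≤ Real.log X.card := by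
    rw [Real.le_log_iff_exp_le hXpos]; exact hX
  have hlZ : c * k ≤ Real.log Z.card := by
    rw [Real.le_log_iff_exp_le hZpos]; exact hZ
  have hmain := hT1 V G X Z (X ∪ Z).card k k (C' * Real.exp (ρ / 2 * (2 * k) + k * v))
    hXne hZne (Finset.card_le_card subset_union_left) (Finset.card_le_card subset_union_right)
    hR (NoB_mono hBl subset_union_left) ?_ ?_
  · rw [Real.log_mul hC'.ne' (by positivity), Real.log_exp] at hmain
    have hsq : Real.sqrt (Real.log (X ∪ Z).card) ≤ Real.sqrt (2 * k * Real.log 2) :=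
      Real.sqrt_le_sqrt hn2
    have hC1s : C1 * (1 + Real.sqrt (Real.log (X ∪ Z).card))
        ≤ C1 * (1 + Real.sqrt (2 * k * Real.log 2)) := by gcongr
    have hk1 := hk0 k (by omega)
    have h5 : a * (c * k) ≤ a * Real.log X.card := mul_le_mul_of_nonneg_left hlX ha.le
    have h9 : (1 + a) * c * k = k * (4 * ρ + (L + M + v)) := by
      rw [hρ]; ring
    have h10 : 0 < ρ * k := by positivity
    nlinarith
  · intro j hj Z' hZ' hRZ
    have h2 := hG V G Z' j k hRZ (NoB_mono hBl (hZ'.trans subset_union_right))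
    rw [mul_assoc, ← Real.exp_add]
    refine h2.trans ?_
    have : Real.exp (ρ / 2 * (j + k) + j * L + k * v)
        ≤ Real.exp (ρ / 2 * (2 * k) + k * v + j * L) := by
      apply Real.exp_le_exp.2
      have h3 : (j : ℝ) ≤ k := by exact_mod_cast hj
      have := mul_le_mul_of_nonneg_left h3 (by positivity : 0 ≤ ρ / 2)
      linarith
    gcongr
  · have e : q' + (q - q') = q := by ring
    rw [e]
    exact hd

/-- one row: density `q`, base `b`, lower bound `cc` of `log b`, the parameters `a`, `M`, the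
line `(z, zb)` and the certificate; everything is scaled by `10^18` -/
structure QD where
  /-- the density -/
  q : ℤ
  /-- the base -/
  b : ℤ
  /-- lower bound for the logarithm of the base -/
  cc : ℤ
  /-- parameter -/
  a : ℤ
  /-- parameter -/
  M : ℤ
  /-- line -/
  z : ℕ
  /-- mirrored -/
  zb : Bool
  /-- certificate -/
  c : CD

/-- the rows -/
def qrows : List QD := [
  ⟨550000000000000000, 3291000000000000000, 1191191468000000000, 450000000000000000, 315172537119000000, 67, true, ⟨211672527526000000, 264519156696000000, 371842529873000000, 455304962373000000, 537296633410000000, 877853416525000000⟩⟩,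
  ⟨600000000000000000, 3152000000000000000, 1148037170000000000, 508000000000000000, 332463946221000000, 69, true, ⟨197785965547000000, 273551162203000000, 344831933407000000, 518085445739000000, 584051012420000000, 815619492115000000⟩⟩,
  ⟨650000000000000000, 3033000000000000000, 1109552227000000000, 570000000000000000, 349508746677000000, 70, true, ⟨190051888000000000, 278965430111000000, 316607522155000000, 588927120607000000, 631860980857000000, 758436019464000000⟩⟩,
  ⟨700000000000000000, 2929000000000000000, 1074661066000000000, 614500000000000000, 354556219335000000, 72, true, ⟨182938931850000000, 274903620961000000, 283375784127000000, 661589762374000000, 678085687100000000, 708438996019000000⟩⟩,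
  ⟨750000000000000000, 2838000000000000000, 1043099577000000000, 654000000000000000, 355681016461000000, 74, true, ⟨176135339113000000, 264724771896000000, 247962437054000000, 746144378105000000, 726388658867000000, 660975240416000000⟩⟩,
  ⟨800000000000000000, 2755000000000000000, 1013417441000000000, 700000000000000000, 358593662578000000, 75, true, ⟨169372666423000000, 249786472074000000, 212291667730000000, 850457704803000000, 777772890238000000, 615127569358000000⟩⟩,
  ⟨850000000000000000, 2680000000000000000, 985816793000000000, 732500000000000000, 353441268623000000, 77, true, ⟨162734983390000000, 224456488420000000, 172376772760000000, 982685299177000000, 833833575055000000, 569834322538000000⟩⟩,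
  ⟨900000000000000000, 2609000000000000000, 958967005000000000, 771000000000000000, 348550727334000000, 78, true, ⟨155665446337000000, 189074016147000000, 129568171587000000, 1176644335145000000, 899861640551000000, 521930246475000000⟩⟩]

/-- the small change of the density, scaled -/
def DQ : ℤ := 1000000000

/-- the check of a row -/
def qrowChk (D : List LD) (d : QD) : Bool :=
  decide (d.z < D.length) && decide (0 < d.a) && decide (d.a ≤ SC) && decide (0 ≤ d.M) &&
  decide (0 ≤ gu D d.z d.zb) && decide (0 < d.q - DQ) && decide (d.q - DQ < SC) &&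
  Iv.ok (Iv.pt d.cc) && decide ((Iv.exp (Iv.pt d.cc)).hi ≤ d.b) &&
  decide ((gu D d.z d.zb + d.M + gv D d.z d.zb) * SC < (SC + d.a) * d.cc) &&
  certChk d.a (d.q - DQ) (gu D d.z d.zb) d.M d.c.t d.c.x1 d.c.x2 d.c.x3 d.c.s1 d.c.s2

theorem qrows_ok : qrows.all (qrowChk fam) = true := by decide +kernel

theorem biased_of_qrowChk (hT : T1P CertI) {D : List LD} (h : D.all (lineChk D) = true)
    {d : QD} (hd : qrowChk D d = true) :
    ∃ k0 : ℕ, ∀ k : ℕ, k0 ≤ k →
      ∀ (V : Type) [DecidableEq V] (G : SimpleGraph V) [DecidableRel G.Adj] (X Z : Finset V),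
        (R d.b) ^ k ≤ (X.card : ℝ) → (R d.b) ^ k ≤ (Z.card : ℝ) →
        R d.q * X.card * Z.card ≤ ∑ x ∈ X, ∑ y ∈ Z, ind G x y →
        (∃ S ⊆ X ∪ Z, G.IsNClique k S) ∨ (∃ S ⊆ X ∪ Z, Gᶜ.IsNClique k S) := by
  unfold qrowChk at hd
  simp only [Bool.and_eq_true, decide_eq_true_eq] at hd
  obtain ⟨⟨⟨⟨⟨⟨⟨⟨⟨⟨hz, ha⟩, ha1⟩, hM⟩, hL⟩, hq⟩, hq1⟩, hok⟩, hexp⟩, hk⟩, hc⟩ := hd
  have hg := good_of_check (bootstrapP_of_T1P hT) h (⟨d.z, hz⟩, d.zb)
  have hg' : Good (R (gu D d.z d.zb)) (R (gv D d.z d.zb)) := hg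
  have hS := SC_posR
  have hb : Real.exp (R d.cc) ≤ R d.b := ((mem_R d.cc).exp hok).ge_of hexp
  have hq1' : R (d.q - DQ) < 1 := by
    have := R_lt hq1
    rwa [R_SC] at this
  have hqq : R (d.q - DQ) < R d.q := R_lt (by unfold DQ; omega)
  have hkey : R (gu D d.z d.zb) + R d.M + R (gv D d.z d.zb) < (1 + R d.a) * R d.cc := by
    have hk' : (((gu D d.z d.zb : ℤ) : ℝ) + d.M + (gv D d.z d.zb : ℤ)) * SC
        < (SC + d.a) * d.cc := by exact_mod_cast hk
    rw [R_mul_SC (gu D d.z d.zb), R_mul_SC (gv D d.z d.zb), R_mul_SC d.M, R_mul_SC d.a,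
      R_mul_SC d.cc] at hk'
    have h3 : (R (gu D d.z d.zb) + R d.M + R (gv D d.z d.zb)) * (SC * SC)
        < ((1 + R d.a) * R d.cc) * (SC * SC) := by
      refine lt_of_le_of_lt (le_of_eq ?_) (lt_of_lt_of_le hk' (le_of_eq ?_)) <;> ring
    exact lt_of_mul_lt_mul_right h3 (by positivity)
  obtain ⟨k0, hk0⟩ := biased_of_T1P hT (R_pos ha) (R_le_one ha1) (R_pos hq) hq1' hqq
    (R_nonneg hL) (R_nonneg hM) (certChk_sound hc) hg' hkey
  refine ⟨k0, fun k hk V _ G _ X Z hX hZ hd => hk0 k hk V G X Z ?_ ?_ hd⟩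
  · refine le_trans ?_ hX
    rw [mul_comm, Real.exp_nat_mul]
    exact pow_le_pow_left₀ (Real.exp_pos _).le hb k
  · refine le_trans ?_ hZ
    rw [mul_comm, Real.exp_nat_mul]
    exact pow_le_pow_left₀ (Real.exp_pos _).le hb k

end Pool.Agent.H95.Ramsey
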