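import Mathlib

/-!
Paley graphs: every large vertex set has density about one half.
-/

open Finset

namespace Pool.Agent.H95.Ramsey

/-- The Paley graph: `x` and `y` are adjacent if `x ≠ y` and `x - y` (or `y - x`) is a square. -/
def paleyGraph (F : Type) [Field F] : SimpleGraph F :=
  SimpleGraph.fromRel fun x y => IsSquare (x - y)

section
variable {F : Type} [Field F] [Fintype F] [DecidableEq F]

omit [DecidableEq F] in
lemma paley_adj (h1 : Fintype.card F % 4 = 1) {x y : F} :
    (paleyGraph F).Adj x y ↔ x ≠ y ∧ IsSquare (x - y) := by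
  have hneg : IsSquare (-1 : F) := by
    rw [FiniteField.isSquare_neg_one_iff]
    omega
  unfold paleyGraph
  rw [SimpleGraph.fromRel_adj]
  constructor
  · rintro ⟨hne, h | h⟩
    · exact ⟨hne, h⟩
    · refine ⟨hne, ?_⟩
      have : x - y = -1 * (y - x) := by ring
      rw [this]
      exact hneg.mul h
  · rintro ⟨hne, h⟩
    exact ⟨hne, Or.inl h⟩

omit [DecidableEq F] in
lemma char_ne_two (h1 : Fintype.card F % 4 = 1) : ringChar F ≠ 2 := by
  intro h
  have h2 := FiniteField.even_card_of_char_two h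
  omega

/-- autocorrelation of the quadratic character -/
lemma chi_sum (h2 : ringChar F ≠ 2) {c : F} (hc : c ≠ 0) :
    ∑ x : F, quadraticChar F x * quadraticChar F (x + c) = -1 := by
  have e1 : ∑ x : F, quadraticChar F x * quadraticChar F (x + c)
      = ∑ x ∈ univ.erase (0 : F), quadraticChar F (1 + c * x⁻¹) := by
    rw [← Finset.add_sum_erase univ _ (mem_univ (0 : F))]
    rw [quadraticChar_zero, zero_mul, zero_add]
    refine Finset.sum_congr rfl fun x hx => ?_
    have hx0 : x ≠ 0 := (mem_erase.1 hx).1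
    rw [← map_mul]
    have : x * (x + c) = x ^ 2 * (1 + c * x⁻¹) := by
      field_simp
    rw [this, map_mul, quadraticChar_sq_one' hx0, one_mul]
  have e2 : ∑ x ∈ univ.erase (0 : F), quadraticChar F (1 + c * x⁻¹)
      = ∑ u ∈ univ.erase (1 : F), quadraticChar F u := by
    refine Finset.sum_bij' (fun x _ => 1 + c * x⁻¹) (fun u _ => c * (u - 1)⁻¹) ?_ ?_ ?_ ?_ ?_
    · intro x hx
      have hx0 : x ≠ 0 := (mem_erase.1 hx).1
      simp [hc, hx0]
    · intro u hu
      have hu0 : u - 1 ≠ 0 := sub_ne_zero.2 (mem_erase.1 hu).1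
      simp [hc, hu0]
    · intro x hx
      have hx0 : x ≠ 0 := (mem_erase.1 hx).1
      field_simp
      ring_nf
      field_simp
    · intro u hu
      have hu0 : u - 1 ≠ 0 := sub_ne_zero.2 (mem_erase.1 hu).1
      field_simp
      ring
    · intro x hx
      rfl
  have e3 := Finset.add_sum_erase univ (fun u => quadraticChar F u) (mem_univ (1 : F))
  rw [quadraticChar_sum_zero h2] at e3
  simp only [map_one] at e3
  rw [e1, e2]
  linarith

/-- correlation of two translates -/
lemma chi_corr (h2 : ringChar F ≠ 2) (y z : F) :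
    ∑ x : F, quadraticChar F (x - y) * quadraticChar F (x - z)
      = if y = z then (Fintype.card F : ℤ) - 1 else -1 := by
  have e1 : ∑ x : F, quadraticChar F (x - y) * quadraticChar F (x - z)
      = ∑ x : F, quadraticChar F x * quadraticChar F (x + (y - z)) := by
    rw [← Equiv.sum_comp (Equiv.addRight y)
      (fun x => quadraticChar F (x - y) * quadraticChar F (x - z))]
    refine Finset.sum_congr rfl fun x _ => ?_
    simp only [Equiv.coe_addRight]
    congr 2 <;> ring
  rw [e1]
  split_ifs with h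
  · subst h
    simp only [sub_self, add_zero]
    have e3 := Finset.add_sum_erase univ (fun u => quadraticChar F u * quadraticChar F u)
      (mem_univ (0 : F))
    rw [← e3]
    have e4 : ∑ u ∈ univ.erase (0 : F), quadraticChar F u * quadraticChar F u
        = ∑ u ∈ univ.erase (0 : F), (1 : ℤ) := by
      refine Finset.sum_congr rfl fun x hx => ?_
      have hx0 : x ≠ 0 := (mem_erase.1 hx).1
      rw [← pow_two, quadraticChar_sq_one hx0]
    rw [e4, quadraticChar_zero]
    simp only [mul_zero, zero_add, sum_const, nsmul_eq_mul, mul_one]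
    rw [card_erase_of_mem (mem_univ _), card_univ]
    have : 0 < Fintype.card F := Fintype.card_pos
    push_cast [Nat.cast_sub (show 1 ≤ Fintype.card F from this)]
    ring
  · exact chi_sum h2 (sub_ne_zero.2 h)

/-- second moment -/
lemma chi_second (h2 : ringChar F ≠ 2) (Y : Finset F) :
    ∑ x : F, (∑ y ∈ Y, quadraticChar F (x - y)) ^ 2
      = (Fintype.card F : ℤ) * Y.card - (Y.card : ℤ) ^ 2 := by
  have e1 : ∀ x : F, (∑ y ∈ Y, quadraticChar F (x - y)) ^ 2
      = ∑ y ∈ Y, ∑ z ∈ Y, quadraticChar F (x - y) * quadraticChar F (x - z) := by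
    intro x
    rw [pow_two, Finset.sum_mul_sum]
  simp only [e1]
  rw [Finset.sum_comm]
  have e2 : ∀ y ∈ Y, ∑ x : F, ∑ z ∈ Y, quadraticChar F (x - y) * quadraticChar F (x - z)
      = (Fintype.card F : ℤ) - Y.card := by
    intro y hy
    rw [Finset.sum_comm]
    simp only [chi_corr h2]
    have e3 : ∀ z ∈ Y, (if y = z then (Fintype.card F : ℤ) - 1 else -1)
        = (if y = z then (Fintype.card F : ℤ) else 0) + (-1) := by
      intro z _
      split_ifs <;> ring
    rw [Finset.sum_congr rfl e3, Finset.sum_add_distrib]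
    simp [hy]
    ring
  rw [Finset.sum_congr rfl e2]
  simp only [sum_const, nsmul_eq_mul]
  ring

/-- the character sum bound -/
lemma chi_bound (h2 : ringChar F ≠ 2) (Y : Finset F) :
    -(Real.sqrt (Fintype.card F) * Y.card)
      ≤ ∑ x ∈ Y, ∑ y ∈ Y, ((quadraticChar F (x - y) : ℤ) : ℝ) := by
  set q : ℝ := (Fintype.card F : ℝ) with hq
  have hq0 : 0 ≤ q := by positivity
  have h3 : (∑ x ∈ Y, ∑ y ∈ Y, ((quadraticChar F (x - y) : ℤ) : ℝ)) ^ 2 ≤ q * (Y.card : ℝ) ^ 2 := by
    have c1 := Finset.sum_mul_sq_le_sq_mul_sq Y (fun _ => (1 : ℝ))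
      (fun x => ∑ y ∈ Y, ((quadraticChar F (x - y) : ℤ) : ℝ))
    simp only [one_mul, one_pow, sum_const, nsmul_eq_mul, mul_one] at c1
    have c2 : ∑ x ∈ Y, (∑ y ∈ Y, ((quadraticChar F (x - y) : ℤ) : ℝ)) ^ 2
        ≤ ∑ x : F, (∑ y ∈ Y, ((quadraticChar F (x - y) : ℤ) : ℝ)) ^ 2 :=
      Finset.sum_le_univ_sum_of_nonneg fun x => sq_nonneg _
    have c3 : ∑ x : F, (∑ y ∈ Y, ((quadraticChar F (x - y) : ℤ) : ℝ)) ^ 2
        = q * Y.card - (Y.card : ℝ) ^ 2 := by
      rw [hq]
      exact_mod_cast chi_second h2 Y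
    have c4 : (Y.card : ℝ) * ∑ x ∈ Y, (∑ y ∈ Y, ((quadraticChar F (x - y) : ℤ) : ℝ)) ^ 2
        ≤ Y.card * (q * Y.card - (Y.card : ℝ) ^ 2) :=
      mul_le_mul_of_nonneg_left (c2.trans (le_of_eq c3)) (by positivity)
    have c5 : (0 : ℝ) ≤ (Y.card : ℝ) ^ 3 := by positivity
    nlinarith
  have h4 : (Real.sqrt q * Y.card) ^ 2 = q * (Y.card : ℝ) ^ 2 := by
    rw [mul_pow, Real.sq_sqrt hq0]
  rw [← h4] at h3
  have h5 := abs_le_of_sq_le_sq' h3 (by positivity)
  exact h5.1

/-- the number of adjacent ordered pairs in a vertex set -/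
lemma paley_pairs (h1 : Fintype.card F % 4 = 1) (G : SimpleGraph F) [DecidableRel G.Adj]
    (hG : G = paleyGraph F) (Y : Finset F) :
    ((Y.card : ℝ) ^ 2 - Y.card - Real.sqrt (Fintype.card F) * Y.card) / 2
      ≤ ((G.interedges Y Y).card : ℝ) := by
  have hadj : ∀ x y : F, G.Adj x y ↔ x ≠ y ∧ IsSquare (x - y) := by
    intro x y
    rw [hG]
    exact paley_adj h1
  have h2 := char_ne_two h1
  have e1 : ((G.interedges Y Y).card : ℝ)
      = ∑ x ∈ Y, ∑ y ∈ Y, (if G.Adj x y then (1 : ℝ) else 0) := by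
    rw [SimpleGraph.interedges_def, Finset.card_filter, Finset.sum_product]
    push_cast
    rfl
  have e2 : ∀ x y : F, (if G.Adj x y then (1 : ℝ) else 0)
      = (1 + ((quadraticChar F (x - y) : ℤ) : ℝ)) / 2 - (if x = y then (1 / 2 : ℝ) else 0) := by
    intro x y
    by_cases hxy : x = y
    · subst hxy
      simp
    · have hne : x - y ≠ 0 := sub_ne_zero.2 hxy
      by_cases hsq : IsSquare (x - y)
      · rw [if_pos ((hadj x y).2 ⟨hxy, hsq⟩), (quadraticChar_one_iff_isSquare hne).2 hsq,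
          if_neg hxy]
        norm_num
      · rw [if_neg (fun h => hsq ((hadj x y).1 h).2),
          quadraticChar_neg_one_iff_not_isSquare.2 hsq, if_neg hxy]
        norm_num
  rw [e1]
  simp only [e2]
  have e3 : ∑ x ∈ Y, ∑ y ∈ Y, ((1 + ((quadraticChar F (x - y) : ℤ) : ℝ)) / 2
      - (if x = y then (1 / 2 : ℝ) else 0))
      = ((Y.card : ℝ) ^ 2 + ∑ x ∈ Y, ∑ y ∈ Y, ((quadraticChar F (x - y) : ℤ) : ℝ)) / 2
        - Y.card / 2 := by
    simp only [Finset.sum_sub_distrib, ← Finset.sum_div, Finset.sum_add_distrib]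
    simp
    ring
  rw [e3]
  have := chi_bound h2 Y
  linarith

/-- an independent set of the Paley graph gives a clique of the same size -/
lemma paley_self_compl (h1 : Fintype.card F % 4 = 1) {k : ℕ} {S : Finset F}
    (hS : (paleyGraph F)ᶜ.IsNClique k S) : ∃ T, (paleyGraph F).IsNClique k T := by
  have h2 := char_ne_two h1
  obtain ⟨g, hg⟩ := FiniteField.exists_nonsquare h2
  have hg0 : g ≠ 0 := by
    rintro rfl
    exact hg (IsSquare.zero)
  refine ⟨S.image (fun x => g * x), ?_⟩
  rw [SimpleGraph.isNClique_iff] at hS ⊢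
  obtain ⟨hc, hk⟩ := hS
  refine ⟨?_, ?_⟩
  · intro x hx y hy hxy
    simp only [coe_image, Set.mem_image, mem_coe] at hx hy
    obtain ⟨x', hx', rfl⟩ := hx
    obtain ⟨y', hy', rfl⟩ := hy
    have hne : x' ≠ y' := fun h => hxy (by rw [h])
    have h3 := hc hx' hy' hne
    rw [SimpleGraph.compl_adj, paley_adj h1] at h3
    have h4 : ¬ IsSquare (x' - y') := fun h => h3.2 ⟨hne, h⟩
    rw [paley_adj h1]
    refine ⟨hxy, ?_⟩
    rw [← mul_sub]
    have hne0 : g * (x' - y') ≠ 0 := mul_ne_zero hg0 (sub_ne_zero.2 hne)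
    rw [← quadraticChar_one_iff_isSquare hne0, map_mul,
      quadraticChar_neg_one_iff_not_isSquare.2 hg, quadraticChar_neg_one_iff_not_isSquare.2 h4]
    norm_num
  · rw [card_image_of_injective _ (mul_right_injective₀ hg0)]
    exact hk

end

end Pool.Agent.H95.Ramsey
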