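import Pool.Agent.H92.RamseyG

/-!
Locally dense colourings (MP_28724c_co): a greedy phase followed by the theorem `T1`.
-/

open Finset Pool.Agent.H92 Pool.Agent.H92.D

namespace Pool.Agent.H95.Ramsey

section greedy
variable {V : Type} [DecidableEq V]

/-- one greedy step -/
lemma greedy_step {G : SimpleGraph V} [DecidableRel G.Adj] {k : ℕ} {Y : Finset V}
    (hY : Y.Nonempty) (hR : NoR G k Y) {β : ℝ}
    (hd : β * Y.card * Y.card ≤ ∑ x ∈ Y, ∑ y ∈ Y, ind G x y) :
    ∃ Y' ⊆ Y, NoR G (k - 1) Y' ∧ β * Y.card ≤ Y'.card := by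
  by_contra hcon
  push Not at hcon
  have h1 : ∀ y ∈ Y, ∑ z ∈ Y, ind G y z < β * Y.card := by
    intro y hy
    rw [sum_ind]
    exact hcon (rN G y Y) (rN_subset y Y) (NoR_rN hR hy)
  have h2 : ∑ x ∈ Y, ∑ y ∈ Y, ind G x y < ∑ x ∈ Y, β * Y.card :=
    Finset.sum_lt_sum_of_nonempty hY h1
  simp only [sum_const, nsmul_eq_mul] at h2
  nlinarith

/-- the greedy phase -/
lemma greedy [Fintype V] {G : SimpleGraph V} [DecidableRel G.Adj] {k : ℕ}
    (hR : NoR G k univ) {β s' : ℝ} (hβ : 0 < β) (hβ1 : β < 1) (hN : 0 < Fintype.card V)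
    (hd : ∀ Y : Finset V, Real.exp (s' * Real.log (Fintype.card V)) ≤ Y.card →
      β * Y.card * Y.card ≤ ∑ x ∈ Y, ∑ y ∈ Y, ind G x y) :
    ∀ i : ℕ, i * (-Real.log β) ≤ (1 - s') * Real.log (Fintype.card V) →
      ∃ Y : Finset V, NoR G (k - i) Y ∧
        Real.exp (Real.log (Fintype.card V) - i * (-Real.log β)) ≤ Y.card := by
  intro i
  have hN' : (0 : ℝ) < Fintype.card V := by exact_mod_cast hN
  have hlog : 0 < -Real.log β := by
    have := Real.log_neg hβ hβ1
    linarith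
  induction i with
  | zero =>
    intro _
    refine ⟨univ, by simpa using hR, ?_⟩
    simp [Real.exp_log hN']
  | succ i ih =>
    intro hi
    push_cast at hi
    have hi' : (i : ℝ) * (-Real.log β) ≤ (1 - s') * Real.log (Fintype.card V) := by
      linarith
    obtain ⟨Y, hY, hYc⟩ := ih hi'
    have h1 : Real.exp (s' * Real.log (Fintype.card V)) ≤ Y.card := by
      refine le_trans (Real.exp_le_exp.2 ?_) hYc
      linarith
    have hYne : Y.Nonempty := by
      rw [← Finset.card_pos]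
      have : (0 : ℝ) < Y.card := lt_of_lt_of_le (Real.exp_pos _) h1
      exact_mod_cast this
    obtain ⟨Y', _, hY', hc⟩ := greedy_step hYne hY (hd Y h1)
    refine ⟨Y', by rwa [Nat.sub_sub] at hY', ?_⟩
    refine le_trans ?_ hc
    have h2 : Real.exp (Real.log (Fintype.card V) - ((i + 1 : ℕ) : ℝ) * (-Real.log β))
        = β * Real.exp (Real.log (Fintype.card V) - i * (-Real.log β)) := by
      nth_rewrite 2 [← Real.exp_log hβ]
      rw [← Real.exp_add]
      congr 1
      push_cast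
      ring
    rw [h2]
    gcongr

end greedy

/-- the continuity argument for the choice of the small constant -/
lemma exists_delta {a q L T s c : ℝ} (hq2 : q < 1 / 2) (hs1 : s < 1)
    (hkey : T < c * ((1 + a) * s + (1 - s) * L / Real.log 2)) :
    ∃ δ : ℝ, 0 < δ ∧ δ < 1 / 4 ∧ s + δ < 1 ∧ q < 1 / 2 - δ ∧
      T < c * ((1 + a) * (s + δ) + (1 - (s + δ)) * L / (-Real.log (1 / 2 - δ))) := by
  have hlog2 : 0 < Real.log 2 := Real.log_pos (by norm_num)
  have hlh : -Real.log (1 / 2 - (0:ℝ)) = Real.log 2 := by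
    rw [sub_zero, one_div, Real.log_inv, neg_neg]
  have hcont : ContinuousAt (fun δ : ℝ =>
      c * ((1 + a) * (s + δ) + (1 - (s + δ)) * L / (-Real.log (1 / 2 - δ)))) 0 := by
    have h1 : ContinuousAt (fun δ : ℝ => Real.log (1 / 2 - δ)) 0 := by
      apply ContinuousAt.log
      · fun_prop
      · norm_num
    have h2 : -Real.log (1 / 2 - (0:ℝ)) ≠ 0 := by rw [hlh]; exact hlog2.ne'
    refine continuousAt_const.mul (ContinuousAt.add (by fun_prop) ?_)
    exact ContinuousAt.div (by fun_prop) h1.neg h2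
  have hev : ∀ᶠ δ in nhds (0:ℝ),
      T < c * ((1 + a) * (s + δ) + (1 - (s + δ)) * L / (-Real.log (1 / 2 - δ))) := by
    refine hcont.eventually_const_lt ?_
    simp only [add_zero]
    rw [hlh]
    exact hkey
  have h1 : ∀ᶠ δ in nhds (0:ℝ), δ < 1 / 4 := eventually_lt_nhds (by norm_num)
  have h2 : ∀ᶠ δ in nhds (0:ℝ), δ < 1 - s := eventually_lt_nhds (by linarith)
  have h3 : ∀ᶠ δ in nhds (0:ℝ), δ < 1 / 2 - q := eventually_lt_nhds (by linarith)
  have hall := (((hev.and h1).and h2).and h3)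
  rw [Metric.eventually_nhds_iff] at hall
  obtain ⟨ε, hε, hball⟩ := hall
  have := @hball (ε / 2) (by rw [Real.dist_eq, sub_zero, abs_of_pos (by positivity)]; linarith)
  obtain ⟨⟨⟨g1, g2⟩, g3⟩, g4⟩ := this
  exact ⟨ε / 2, by positivity, g2, by linarith, by linarith, g1⟩

/-- eventual domination of the error terms -/
lemma exists_large {C1 K ρ : ℝ} (hρ : 0 < ρ) (hC1 : 0 ≤ C1) :
    ∃ k0 : ℕ, ∀ k : ℕ, k0 ≤ k →
      C1 * (1 + Real.sqrt (2 * k * Real.log 2)) + K < ρ * k := by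
  have hlog2 : 0 < Real.log 2 := Real.log_pos (by norm_num)
  set δ : ℝ := ρ / (4 * (C1 + 1) * Real.log 2) with hδ
  have hδ0 : 0 < δ := by positivity
  obtain ⟨k0, hk0⟩ := exists_nat_gt ((C1 * (1 + 1 / (4 * δ)) + |K|) / (ρ / 2))
  refine ⟨k0, fun k hk => ?_⟩
  have hk' : (k0 : ℝ) ≤ k := by exact_mod_cast hk
  rw [div_lt_iff₀ (by positivity)] at hk0
  have h1 := sqrt_le_lin (y := 2 * k * Real.log 2) (by positivity) hδ0
  have h3 : C1 * Real.sqrt (2 * k * Real.log 2)
      ≤ C1 * (δ * (2 * k * Real.log 2) + 1 / (4 * δ)) :=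
    mul_le_mul_of_nonneg_left h1 hC1
  have h4 : C1 * (δ * (2 * k * Real.log 2)) = ρ / 2 * k * (C1 / (C1 + 1)) := by
    rw [hδ]; field_simp; ring
  have h5 : C1 / (C1 + 1) ≤ 1 := by
    rw [div_le_one (by linarith)]; linarith
  have h6 : ρ / 2 * k * (C1 / (C1 + 1)) ≤ ρ / 2 * k * 1 := by
    apply mul_le_mul_of_nonneg_left h5; positivity
  have h7 := le_abs_self K
  nlinarith

/-- The main theorem on locally dense colourings, for an arbitrary certificate predicate. -/
theorem dense_of_T1P {P : ℝ → ℝ → ℝ → ℝ → Prop} (hT : T1P P) {a q L M v s c : ℝ}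
    (ha : 0 < a) (ha1 : a ≤ 1) (hq : 0 < q) (hq2 : q < 1 / 2) (hL : 0 ≤ L) (hM : 0 ≤ M)
    (hcert : P a q L M) (hgood : Good L v) (hs0 : 0 ≤ s) (hs1 : s < 1) (hc0 : 0 ≤ c)
    (hkey : L + M + v < c * ((1 + a) * s + (1 - s) * L / Real.log 2)) :
    ∃ δ : ℝ, 0 < δ ∧ ∃ k0 : ℕ, ∀ k : ℕ, k0 ≤ k →
      ∀ (V : Type) [Fintype V] [DecidableEq V] (G : SimpleGraph V) [DecidableRel G.Adj],
        Real.exp (c * k) ≤ Fintype.card V →
        (∀ Y : Finset V, (Fintype.card V : ℝ) ^ (s + δ) ≤ Y.card →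
          (1 / 2 - δ) * Y.card * Y.card ≤ ∑ x ∈ Y, ∑ y ∈ Y, ind G x y) →
        (∃ S, G.IsNClique k S) ∨ (∃ S, Gᶜ.IsNClique k S) := by
  obtain ⟨δ, hδ0, hδ4, hδs, hδq, hδ⟩ := exists_delta (a := a) (L := L) hq2 hs1 hkey
  have hlog2 : 0 < Real.log 2 := Real.log_pos (by norm_num)
  set β : ℝ := 1 / 2 - δ with hβ
  set s' : ℝ := s + δ with hs'
  have hβ0 : 0 < β := by rw [hβ]; linarith
  have hβ1 : β < 1 := by rw [hβ]; linarith
  have hlam : 0 < -Real.log β := by
    have := Real.log_neg hβ0 hβ1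
    linarith
  set B : ℝ := (1 + a) * s' + (1 - s') * L / (-Real.log β) with hB
  have hs'0 : 0 ≤ s' := by rw [hs']; linarith
  have hB0 : 0 ≤ B := by
    rw [hB]
    have : 0 ≤ 1 - s' := by linarith
    positivity
  set ρ : ℝ := (c * B - (L + M + v)) / 4 with hρ
  have hρ0 : 0 < ρ := by rw [hρ]; linarith
  obtain ⟨C1, hC1, hT1⟩ := hT a q L M (β - q) ha ha1 hq (by linarith) hL hM (by linarith) hcert
  obtain ⟨C', hC', hG⟩ := hgood (ρ / 2) (by positivity)
  obtain ⟨k0, hk0⟩ := exists_large (C1 := C1) (K := Real.log C' + L) (ρ := ρ) hρ0 hC1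
  refine ⟨δ, hδ0, k0 + 1, ?_⟩
  intro k hk V _ _ G _ hN hd
  by_contra hcon
  push Not at hcon
  obtain ⟨hc1, hc2⟩ := hcon
  have hR : NoR G k univ := fun S _ => hc1 S
  have hBl : NoB G k univ := fun S _ => hc2 S
  have hkpos : 0 < k := by omega
  have hk' : (0 : ℝ) < k := by exact_mod_cast hkpos
  have hNpos : (0 : ℝ) < Fintype.card V := lt_of_lt_of_le (Real.exp_pos _) hN
  have hNpos' : 0 < Fintype.card V := by exact_mod_cast hNpos
  set n : ℝ := Real.log (Fintype.card V) with hn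
  have hnc : c * k ≤ n := by
    rw [hn, Real.le_log_iff_exp_le hNpos]
    exact hN
  have hesb : ((univ : Finset V).card : ℝ) + 1 ≤ Real.exp (k * Real.log 2 + k * Real.log 2) := by
    refine es_bound hlog2.le hlog2.le ?_ G (k + k) k k univ rfl hR hBl
    rw [Real.exp_neg, Real.exp_log (by norm_num)]; norm_num
  rw [card_univ] at hesb
  have hn2 : n ≤ 2 * k * Real.log 2 := by
    have h1 := Real.log_le_log hNpos (by linarith : (Fintype.card V : ℝ)
      ≤ Real.exp (k * Real.log 2 + k * Real.log 2))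
    rw [Real.log_exp] at h1
    linarith
  have hn0 : 0 ≤ n := le_trans (by positivity) hnc
  -- the greedy phase
  have hd' : ∀ Y : Finset V, Real.exp (s' * Real.log (Fintype.card V)) ≤ Y.card →
      β * Y.card * Y.card ≤ ∑ x ∈ Y, ∑ y ∈ Y, ind G x y := by
    intro Y hY
    refine hd Y ?_
    rw [Real.rpow_def_of_pos hNpos, mul_comm]
    exact hY
  set i : ℕ := ⌊(1 - s') * n / (-Real.log β)⌋₊ with hi
  have h1s : 0 ≤ 1 - s' := by linarith
  have hi1 : (i : ℝ) * (-Real.log β) ≤ (1 - s') * n := by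
    have h1 : (i : ℝ) ≤ (1 - s') * n / (-Real.log β) := Nat.floor_le (by positivity)
    rwa [le_div_iff₀ hlam] at h1
  have hi2 : (1 - s') * n / (-Real.log β) < i + 1 := Nat.lt_floor_add_one _
  obtain ⟨Y, hYR, hYc⟩ := greedy hR hβ0 hβ1 hNpos' hd' i hi1
  have hYc' : Real.exp (s' * n) ≤ Y.card := by
    refine le_trans (Real.exp_le_exp.2 ?_) hYc
    linarith
  have hYpos : (0 : ℝ) < Y.card := lt_of_lt_of_le (Real.exp_pos _) hYc'
  have hYne : Y.Nonempty := by
    rw [← Finset.card_pos]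
    exact_mod_cast hYpos
  have hYd := hd' Y hYc'
  have hYB : NoB G k Y := NoB_mono hBl (subset_univ _)
  have hki := NoR_pos hYR
  have hcast : ((k - i : ℕ) : ℝ) = k - i := by
    rw [Nat.cast_sub (by omega)]
  have hmain := hT1 V G Y Y Y.card (k - i) k (C' * Real.exp (ρ / 2 * (2 * k) + k * v))
    hYne hYne le_rfl le_rfl (by rwa [union_self]) hYB ?_ ?_
  · rw [Real.log_mul hC'.ne' (by positivity), Real.log_exp, hcast] at hmain
    have hlY : s' * n ≤ Real.log Y.card := by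
      rw [Real.le_log_iff_exp_le hYpos]
      exact hYc'
    have hlY2 : Real.log Y.card ≤ n := by
      rw [hn]
      apply Real.log_le_log hYpos
      exact_mod_cast Finset.card_le_univ Y
    have hsq : Real.sqrt (Real.log Y.card) ≤ Real.sqrt (2 * k * Real.log 2) :=
      Real.sqrt_le_sqrt (hlY2.trans hn2)
    have hC1s : C1 * (1 + Real.sqrt (Real.log Y.card))
        ≤ C1 * (1 + Real.sqrt (2 * k * Real.log 2)) := by gcongr
    have hk1 := hk0 k (by omega)
    have h5 : (1 + a) * (s' * n) ≤ (1 + a) * Real.log Y.card :=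
      mul_le_mul_of_nonneg_left hlY (by linarith)
    have h6 : (1 - s') * n / (-Real.log β) * L ≤ (i + 1) * L :=
      mul_le_mul_of_nonneg_right hi2.le hL
    have h7 : n * B = (1 + a) * (s' * n) + (1 - s') * n / (-Real.log β) * L := by
      rw [hB]; ring
    have h8 : c * k * B ≤ n * B := mul_le_mul_of_nonneg_right hnc hB0
    have h9 : c * k * B = k * (4 * ρ + (L + M + v)) := by
      rw [hρ]; ring
    nlinarith
  · intro j hj Z' hZ' hRZ
    have h2 := hG V G Z' j k hRZ (NoB_mono hYB hZ')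
    rw [mul_assoc, ← Real.exp_add]
    refine h2.trans ?_
    have : Real.exp (ρ / 2 * (j + k) + j * L + k * v)
        ≤ Real.exp (ρ / 2 * (2 * k) + k * v + j * L) := by
      apply Real.exp_le_exp.2
      have h3 : (j : ℝ) ≤ k := by
        have : j ≤ k := by omega
        exact_mod_cast this
      have := mul_le_mul_of_nonneg_left h3 (by positivity : 0 ≤ ρ / 2)
      linarith
    gcongr
  · have e : q + (β - q) = β := by ring
    rw [e]
    exact hYd

end Pool.Agent.H95.Ramsey
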